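import Pool.Agent.E8helper59.SI.Up

set_option autoImplicit false

open Finset

namespace Pool.Agent.E8helper59.SI

open Pool.Agent.E8helper61.SI Pool.Agent.H297

/-- the graph with the given pairs as edges -/
def gr {n : ℕ} (x : Finset (Finset (Fin n))) : SimpleGraph (Fin n) where
  Adj u v := u ≠ v ∧ ({u, v} : Finset (Fin n)) ∈ x
  symm := ⟨fun u v h => ⟨h.1.symm, by rw [Finset.pair_comm]; exact h.2⟩⟩
  loopless := ⟨fun u h => h.1 rfl⟩

lemma edg_gr {n : ℕ} {x : Finset (Finset (Fin n))} (hx : x ⊆ Ed (univ : Finset (Fin n))) :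
    edg (gr x) = x := by
  classical
  ext e
  by_cases he : e ∈ Ed (univ : Finset (Fin n))
  · obtain ⟨u, v, huv, rfl⟩ := pair_cases he
    rw [mem_edg]
    exact ⟨fun h => h.2, fun h => ⟨huv, h⟩⟩
  · exact ⟨fun h => absurd (edg_sub _ h) he, fun h => absurd (hx h) he⟩

theorem low : LowStatement := by
  classical
  intro r n hrn
  obtain ⟨S, -, hS⟩ := exists_subset_card_eq (s := (univ : Finset (Fin n))) (n := r)
    (by rw [card_univ, Fintype.card_fin]; exact hrn)
  have hsub : Ed S ⊆ Ed (univ : Finset (Fin n)) := powersetCard_mono (subset_univ _)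
  refine ⟨(Ed (univ : Finset (Fin n)) \ Ed S).powerset.image gr, ?_, ?_⟩
  · intro G hG H hH _
    rw [mem_image] at hG hH
    obtain ⟨x, hx, rfl⟩ := hG
    obtain ⟨y, hy, rfl⟩ := hH
    rw [mem_powerset] at hx hy
    refine ⟨S, ?_, hS⟩
    intro u hu v hv huv hadj
    have hmem : ({u, v} : Finset (Fin n)) ∈ Ed S := by
      unfold Ed
      rw [mem_powersetCard]
      refine ⟨?_, card_pair huv⟩
      intro w hw
      simp only [mem_insert, mem_singleton] at hw
      rcases hw with rfl | rfl
      · exact mem_coe.1 hu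
      · exact mem_coe.1 hv
    simp only [symmDiff, SimpleGraph.sup_adj, SimpleGraph.sdiff_adj] at hadj
    rcases hadj with h | h
    · exact (mem_sdiff.1 (hx h.1.2)).2 hmem
    · exact (mem_sdiff.1 (hy h.1.2)).2 hmem
  · rw [card_image_of_injOn, card_powerset, card_sdiff_of_subset hsub]
    · unfold Ed
      rw [card_powersetCard, card_powersetCard, card_univ, Fintype.card_fin, hS]
    · intro x hx y hy hxy
      rw [mem_coe, mem_powerset] at hx hy
      rw [← edg_gr (hx.trans sdiff_subset), ← edg_gr (hy.trans sdiff_subset), hxy]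

end Pool.Agent.E8helper59.SI
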