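import Pool.Agent.H297.GraphVersion
import Pool.Agent.E8helper61.SI.Stm

set_option autoImplicit false

open Finset

namespace Pool.Agent.E8helper59.SI

open Pool.Agent.E8helper61.SI Pool.Agent.H297

variable {n : ℕ}

lemma pair_cases {e : Finset (Fin n)} (he : e ∈ Ed (univ : Finset (Fin n))) :
    ∃ u v, u ≠ v ∧ e = {u, v} := by
  unfold Ed at he
  rw [mem_powersetCard] at he
  exact card_eq_two.1 he.2

lemma edg_symmDiff (G H : SimpleGraph (Fin n)) :
    edg (symmDiff G H) = symmDiff (edg G) (edg H) := by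
  classical
  ext e
  by_cases he : e ∈ Ed (univ : Finset (Fin n))
  · obtain ⟨u, v, -, rfl⟩ := pair_cases he
    rw [mem_edg, Finset.mem_symmDiff, mem_edg, mem_edg]
    simp only [symmDiff, SimpleGraph.sup_adj, SimpleGraph.sdiff_adj]
  · constructor
    · intro h
      exact absurd (edg_sub _ h) he
    · intro h
      rw [Finset.mem_symmDiff] at h
      rcases h with h | h
      · exact absurd (edg_sub _ h.1) he
      · exact absurd (edg_sub _ h.1) he

theorem up : UpStatement := by
  classical
  intro hcomp r n hrn hU F hF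
  obtain ⟨R0, -, hR0⟩ := exists_subset_card_eq (s := (univ : Finset (Fin n))) (n := r)
    (by rw [card_univ, Fintype.card_fin]; exact hrn)
  set D : Finset (Finset (Fin n)) → Prop := fun z => z ⊆ Ed (univ : Finset (Fin n)) ∧
    ∃ R : Finset (Fin n), R.card = r ∧ Disjoint z (Ed R) with hD
  have hdown : ∀ x y : Finset (Finset (Fin n)), x ⊆ y → D y → D x := by
    rintro x y hxy ⟨h1, R, hR, h2⟩
    exact ⟨hxy.trans h1, R, hR, h2.mono_left hxy⟩
  have hA : ∀ x ∈ F.image edg, ∀ y ∈ F.image edg, D (symmDiff x y) := by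
    intro x hx y hy
    rw [mem_image] at hx hy
    obtain ⟨G, hG, rfl⟩ := hx
    obtain ⟨H, hH, rfl⟩ := hy
    rw [← edg_symmDiff]
    refine ⟨edg_sub _, ?_⟩
    by_cases hGH : G = H
    · subst hGH
      refine ⟨R0, hR0, ?_⟩
      rw [edg_symmDiff, symmDiff_self]
      exact disjoint_bot_left
    · obtain ⟨s, hs⟩ := hF G hG H hH hGH
      refine ⟨s, hs.card_eq, ?_⟩
      rw [Finset.disjoint_left]
      intro e he he'
      unfold Ed at he'
      rw [mem_powersetCard] at he'
      obtain ⟨u, v, huv, rfl⟩ := card_eq_two.1 he'.2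
      rw [mem_edg] at he
      have hu : u ∈ s := he'.1 (by simp)
      have hv : v ∈ s := he'.1 (by simp)
      exact hs.isIndepSet (mem_coe.2 hu) (mem_coe.2 hv) huv he
  obtain ⟨B, hBc, hB⟩ := hcomp (Finset (Fin n)) D hdown (F.image edg) hA
  have h1 := hU B (fun x hx y hy => hB x hx y hy)
  rw [hBc, card_image_of_injective _ edg_injective] at h1
  have h2 : r.choose 2 ≤ n.choose 2 := Nat.choose_le_choose 2 hrn
  have h3 : 2 ^ (n.choose 2) = 2 ^ (n.choose 2 - r.choose 2) * 2 ^ (r.choose 2) := by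
    rw [← pow_add, Nat.sub_add_cancel h2]
  rw [h3] at h1
  exact Nat.le_of_mul_le_mul_right h1 (by positivity)

end Pool.Agent.E8helper59.SI
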